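import Pool.Agent.Lib.MP_ec8146_lc.Torus3

/-!
# Toroidal graphs of maximum degree four are not nearly `k`-planar

For every `k` there is a finite toroidal graph of maximum degree at most `4` which does not become
`k`-planar by deleting at most `k` edges.
-/

open Pool.Agent.Lib.MP_ec8146_lc

/-- For every `k` there is a finite toroidal graph `G` of maximum degree at most four such that,
for every set `S` of at most `k` edges, `G - S` is not `k`-planar. -/
theorem Pool.Agent.Results.MP_ec8146_lc.ToroidalNotNearlyKPlanar.result :
    ∀ k : ℕ, ∃ (V : Type) (_ : Fintype V) (G : SimpleGraph V),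
      Toroidal G ∧ (∀ v, (G.neighborSet v).encard ≤ 4) ∧
      ∀ S : Finset (Sym2 V), S.card ≤ k → ¬ KPlanar k (G.deleteEdges (S : Set (Sym2 V))) := by
  intro k
  obtain ⟨p, a, hp, h⟩ := exists_not_kplanar k
  have hs : ∀ c, p.w c + 1 < p.s := fun c => by have := hp.ws c; omega
  exact ⟨TV p, inferInstance, Tor p, toroidal_Tor hs hp.gs (by have := hp.aD; omega),
    degree_le hs hp.gs, h⟩
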