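import Pool.Agent.Lib.MP_ec8146_lc.Final

/-!
# The class of toroidal graphs is not FO transducible from the class of planar graphs
-/

namespace Pool.Agent.Results.MP_ec8146_lc.ToroidalNotTransducible

open Pool.Agent.Lib.MP_ec8146_lc

/-- The class of all finite toroidal graphs is not first-order transducible from the class of all
finite planar graphs: for every number `c` of colours and every first-order formula `ψ(x, y)` there
is a finite toroidal graph which is not an induced subgraph of `ψ(G⁺)` for any `c`-coloured finite
planar graph `G⁺`. -/
theorem result : ¬ Transducible (fun _ G => Toroidal G) (fun _ G => Planar G) :=
  not_transducible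

end Pool.Agent.Results.MP_ec8146_lc.ToroidalNotTransducible
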